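import Pool.Agent.Helper29.GC.GTH

/-!
# Block GC-3: descent, local lifts give a global lift (helper29)

The induction, with the blocks H90, 2a, 2b, 2c as hypotheses of the auxiliary theorems.
-/

set_option autoImplicit false

namespace Pool.Agent.Helper58.GC

open Pool.Agent.Helper25.EC Pool.Agent.Helper59.EC

variable {p : ℕ} {K G P Q : Type} [Field K] [Group G] [TopologicalSpace G]
  [MulSemiringAction G K] [Group P] [Group Q]

theorem LiftOn.mono {π : P →* Q} {ψ : G →* Q} {D E : Subgroup G} (h : LiftOn π ψ E)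
    (hDE : D ≤ E) : LiftOn π ψ D := by
  obtain ⟨f, N, hN, h1, h2, h3⟩ := h
  exact ⟨f, N, hN, fun σ hσ τ hτ => h1 σ (hDE hσ) τ (hDE hτ), fun ν hν => h2 ν (hDE hν),
    fun σ hσ => h3 σ (hDE hσ)⟩

omit [TopologicalSpace G] in
theorem mem_cj {g σ : G} {H : Subgroup G} : σ ∈ cj g H ↔ g⁻¹ * σ * g ∈ H := by
  unfold cj
  constructor
  · rintro ⟨x, hx, rfl⟩
    simpa [mul_assoc] using hx
  · intro h
    refine ⟨g⁻¹ * σ * g, h, ?_⟩
    simp [mul_assoc]

theorem LiftOn.cj [IsTopologicalGroup G] {π : P →* Q} (hπ : Function.Surjective π)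
    {ψ : G →* Q} {H : Subgroup G} (h : LiftOn π ψ H) (g : G) : LiftOn π ψ (cj g H) := by
  obtain ⟨f, N, hN, h1, h2, h3⟩ := h
  obtain ⟨q, hq⟩ := hπ (ψ g)
  refine ⟨fun σ => q * f (g⁻¹ * σ * g) * q⁻¹, N.comap (MulAut.conj g⁻¹).toMonoidHom, ?_, ?_,
    ?_, ?_⟩
  · have hc : Continuous (fun σ : G => g⁻¹ * σ * (g⁻¹)⁻¹) := by fun_prop
    exact hN.preimage hc
  · intro σ hσ τ hτ
    rw [mem_cj] at hσ hτ
    have : g⁻¹ * (σ * τ) * g = (g⁻¹ * σ * g) * (g⁻¹ * τ * g) := by group
    simp only [this, h1 _ hσ _ hτ]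
    group
  · intro ν hν hνN
    rw [mem_cj] at hν
    have h4 : g⁻¹ * ν * g ∈ N := by
      have := hνN
      rw [Subgroup.mem_comap] at this
      simpa using this
    simp only [h2 _ hν h4]
    group
  · intro σ hσ
    rw [mem_cj] at hσ
    simp only [map_mul, map_inv, hq, h3 _ hσ]
    group

/-- A nontrivial finite `p`-group has a normal subgroup of index `p`. -/
theorem exists_normal_index_p {R : Type*} [Group R] [Finite R] {p : ℕ} (hp : p.Prime)
    (hR : ∃ k, Nat.card R = p ^ k) (h1 : Nat.card R ≠ 1) :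
    ∃ L : Subgroup R, L.Normal ∧ L.index = p := by
  obtain ⟨k, hk⟩ := hR
  have : Fact p.Prime := ⟨hp⟩
  obtain ⟨m, rfl⟩ : ∃ m, k = m + 1 := by
    cases k with
    | zero => exact absurd (by simpa using hk) h1
    | succ m => exact ⟨m, rfl⟩
  obtain ⟨L, hL⟩ := Sylow.exists_subgroup_card_pow_prime (G := R) (n := m) p
    (by rw [hk]; exact pow_dvd_pow p (Nat.le_succ m))
  have hidx : L.index = p := by
    have := L.card_mul_index
    rw [hL, hk, pow_succ] at this
    exact Nat.eq_of_mul_eq_mul_left (pow_pos hp.pos m) this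
  refine ⟨L, ?_, hidx⟩
  apply Subgroup.normal_of_index_eq_minFac_card
  rw [hidx, hk, Nat.pow_minFac (Nat.succ_ne_zero m), hp.minFac_eq]

end Pool.Agent.Helper58.GC
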