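import Pool.Agent.Helper58.GC.Defs

/-!
# Block GC-TH: identification of a group of order `p` with the roots of unity (helper29)
-/

set_option autoImplicit false

namespace Pool.Agent.Helper58.GC

/-- A group of prime order `p` is isomorphic to the group of `p`-th roots of unity. -/
theorem exists_theta_group {K C : Type*} [Field K] [Group C] {p : ℕ} (hp : p.Prime) {ζ : K}
    (hζ : IsPrimitiveRoot ζ p) (hcard : Nat.card C = p) :
    ∃ θ : C →* Kˣ, Function.Injective θ ∧ ∀ y : K, y ^ p = 1 → ∃ z : C, (θ z : K) = y := by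
  have : Fact p.Prime := ⟨hp⟩
  have : NeZero p := ⟨hp.ne_zero⟩
  have h1 : Nat.card (rootsOfUnity p K) = p := hζ.card_rootsOfUnity
  let e : C ≃* rootsOfUnity p K := mulEquivOfPrimeCardEq hcard h1
  refine ⟨(rootsOfUnity p K).subtype.comp e.toMonoidHom, ?_, ?_⟩
  · exact Subtype.val_injective.comp e.injective
  · intro y hy
    obtain ⟨z, hz⟩ := e.surjective (rootsOfUnity.mkOfPowEq y hy)
    refine ⟨z, ?_⟩
    simp only [MonoidHom.comp_apply, MulEquiv.toMonoidHom_eq_coe, MonoidHom.coe_coe, hz]
    simp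

variable {p : ℕ} {K P Q : Type} [Field K] [Group P] [Group Q]

/-- GC-TH. Identification of the kernel with the roots of unity. -/
theorem exists_theta (hp : p.Prime) {ζ : K} (hζ : IsPrimitiveRoot ζ p) (π : P →* Q)
    (hcard : Nat.card π.ker = p) : ∃ θ : π.ker →* Kˣ, Function.Injective θ ∧
      ∀ y : K, y ^ p = 1 → ∃ z : π.ker, (θ z : K) = y :=
  exists_theta_group hp hζ hcard

end Pool.Agent.Helper58.GC
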